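import Pool.Agent.H82.HD.TW
import Pool.Agent.H49.EZ.EZP

/-!
# hds_modules, row BCN: orthogonality of the caps
-/

set_option autoImplicit false

namespace Pool.Agent.H86.HDS.BCN

open MeasureTheory Set FourierTransform
open scoped ENNReal NNReal RealInnerProductSpace
open Pool.Agent.H82.HD

theorem pf_BCN (hACS : Pool.Agent.H81.GT.T_ACS) (hPUS : Pool.Agent.H83.G.T_PUS)
    (_hPLE : Pool.Agent.H83.LS.T_PLE) : T_BCN := by
  intro n κ a hκ ha
  obtain ⟨C, hC, h⟩ := Pool.Agent.H49.EZ.pf_EZP hACS hPUS n κ a hκ ha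
  exact ⟨C.toNNReal, fun A s t f hs hs1 hf => h s t A f _ hs hs1 hf⟩

end Pool.Agent.H86.HDS.BCN
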